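import Pool.Agent.Y646.RB.Aper

/-!
# REACHABLE SUBSET_k for automata with a fixed number of letters

The decision problem, polynomial space and completeness are defined in
`Pool.Agent.H623R2.PS.Defs`; the restrictions `ReachLetters` (exactly `m` letters), `ReachSC`
(exactly `m` letters, strongly connected, synchronizing) and `Cls` (exactly `m` letters, strongly
connected, synchronizing, aperiodic), and `HardOn`, `PolyOn`, in `Pool.Agent.Y646.RB`.
-/

namespace Pool.Agent.Results.MP_76b05e_lc.TwoLetters

open Pool.Agent.NPC Pool.Agent.H623R2.PS Pool.Agent.Y646.RB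

/-- For every `k ≥ 2` and every `m ≥ 2` REACHABLE SUBSET_k is `PSPACE`-complete for automata with
exactly `m` letters, also for the strongly connected synchronizing ones, and it is `PSPACE`-hard
even on the strongly connected synchronizing aperiodic ones, on which a correct polynomial-time
algorithm exists iff `P = PSPACE`; for `k ≤ 1` or `m ≤ 1` it is in `P`. Without restriction it is
`PSPACE`-complete for every fixed `k ≥ 2`. -/
theorem result :
    (∀ k m : ℕ, 2 ≤ k → 2 ≤ m →
      PSPACEComplete (lang (ReachLetters k m)) ∧ PSPACEComplete (lang (ReachSC k m)) ∧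
        HardOn k (Cls m) ∧ (PolyOn k (Cls m) ↔ ∀ L : Set (List Bool), InPSPACE L → InP L)) ∧
      (∀ k m : ℕ, (k ≤ 1 ∨ m ≤ 1) → InP (lang (ReachLetters k m))) ∧
      ∀ k : ℕ, 2 ≤ k → Pool.Agent.H623R2.PS.PSPACEComplete (lang (ReachableSubset k)) ∧
        (InP (lang (ReachableSubset k)) ↔ ∀ L : Set (List Bool), InPSPACE L → InP L) := by
  refine ⟨fun k m hk hm => ?_, fun k m h => ?_, fun k hk => ?_⟩
  · exact ⟨⟨member k m, Pool.Agent.Y646.RB.hard hk hm⟩,
      ⟨memberSC (k := k) (by omega) m, hardSC hk hm⟩, hardAp hk hm, polyOn_iff (hardAp hk hm)⟩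
  · rcases h with h | h
    · exact inP_small h m
    · exact inP_one k h
  · exact ⟨⟨Pool.Agent.H505R3.RS.member k, Pool.Agent.H623R2.PS.hard hk⟩,
      fun h L hL => InP.of_reduces (Pool.Agent.H623R2.PS.hard hk L hL) h,
      fun h => h _ (Pool.Agent.H505R3.RS.member k)⟩

end Pool.Agent.Results.MP_76b05e_lc.TwoLetters
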